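import Pool.Agent.X207.StepExt

/-!
# MP_68c038_an : automatic continuity of step-isometries on Banach spaces

Every step-isometry of a Banach space is continuous.
-/

namespace Pool.Agent.Results.MP_68c038_an.Continuity

/-- `T : X → X` is a step-isometry: a bijection preserving the integer parts of all distances. -/
def IsStepIsometry {X : Type*} [NormedAddCommGroup X] (T : X → X) : Prop :=
  Function.Bijective T ∧ ∀ x y : X, ⌊‖x - y‖⌋ = ⌊‖T x - T y‖⌋

/-- **Main theorem.** Let `X` be a real or complex Banach space. Every step-isometry
`T : X → X` is continuous for the norm topology. -/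
theorem result {𝕜 X : Type*} [RCLike 𝕜] [NormedAddCommGroup X] [NormedSpace 𝕜 X]
    [CompleteSpace X] (T : X → X) (hT : IsStepIsometry T) : Continuous T := by
  letI : NormedSpace ℝ X := NormedSpace.restrictScalars ℝ 𝕜 X
  have h : X207.Step.IsStep (Equiv.ofBijective T hT.1) := by
    intro k x y
    have h1 := hT.2 x y
    simp only [Equiv.ofBijective_apply]
    have e : ∀ r : ℝ, r < (k : ℝ) ↔ ⌊r⌋ < (k : ℤ) := by
      intro r
      rw [Int.floor_lt]
      simp
    rw [e, e, h1]
  exact X207.Step.continuous_of_step h

end Pool.Agent.Results.MP_68c038_an.Continuity
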